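import Pool.Agent.PX.Stmts

set_option autoImplicit false

/-!
# Squad PX: row FNP, forms have order one
-/

namespace Pool.Agent.PX.H64

open MvPolynomial
open Pool.Agent.RS (FF io)
open Pool.Agent.PW (dd)

/-- FNP -/
theorem fnp : FnpStmt := by
  intro E _ Γ g G hg
  obtain ⟨hd, -, -⟩ := Pool.Agent.PW.aDer E
  intro i _ j hj
  have h1 : j ∉ (pderiv i g).vars := fun h => hj (Finset.mem_union_right _ (hg i h))
  rw [hd, hd, pderiv_eq_zero_of_notMem_vars h1, map_zero]

end Pool.Agent.PX.H64
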